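import Pool.Agent.Lib.MP_c718d4_an.H1.Core

/-!
# The compact space

The closure of the integers in the cube indexed by the singletons and the sets `A t`.
-/

open Set Filter Topology

namespace Pool.Agent.Lib.MP_c718d4_an

namespace Node

/-- Two sets `A t`, `A r` meet in a set of the same kind, modulo finite sets. -/
lemma exists_meet (t r : Node) : ∃ s : Node, s.le t ∧ s.le r ∧ (¬ t.le r → s.ht < t.ht) ∧
    ((t.A ∩ r.A) \ s.A).Finite := by
  by_cases htr : t.le r
  · refine ⟨t, le_refl t, htr, fun h => (h htr).elim, ?_⟩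
    have : (t.A ∩ r.A) \ t.A = ∅ := by
      ext m
      simp only [Set.mem_sdiff, mem_inter_iff, mem_empty_iff_false, iff_false, not_and, not_not]
      exact fun h => h.1
    rw [this]
    exact finite_empty
  by_cases hag : ∀ β, β < t.ht → β < r.ht → t.f β = r.f β
  · -- then `r` is below `t`
    have hlt : r.ht < t.ht := by
      by_contra hcon
      exact htr ⟨not_lt.mp hcon, fun β hβ => hag β hβ (hβ.trans_le (not_lt.mp hcon))⟩
    refine ⟨r, ⟨hlt.le, fun β hβ => (hag β (hβ.trans hlt) hβ).symm⟩, le_refl r, fun _ => hlt, ?_⟩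
    have : (t.A ∩ r.A) \ r.A = ∅ := by
      ext m
      simp
    rw [this]
    exact finite_empty
  · push Not at hag
    have hne : {β : Ordinal.{0} | β < t.ht ∧ β < r.ht ∧ t.f β ≠ r.f β}.Nonempty := hag
    obtain ⟨γ, ⟨hγt, hγr, hγne⟩, hmin⟩ := WellFounded.has_min (wellFounded_lt (α := Ordinal.{0}))
      {β : Ordinal.{0} | β < t.ht ∧ β < r.ht ∧ t.f β ≠ r.f β} hne
    have hagree : ∀ β < γ, t.f β = r.f β := by
      intro β hβ
      by_contra hcon
      exact hmin β ⟨hβ.trans hγt, hβ.trans hγr, hcon⟩ hβ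
    have hPeq : P t.f γ = P r.f γ := P_congr γ hagree
    refine ⟨t.trunc γ hγt.le, ⟨hγt.le, fun β hβ => if_pos hβ⟩,
      ⟨hγr.le, fun β hβ => (if_pos hβ).trans (hagree β hβ)⟩, fun _ => hγt, ?_⟩
    have e1 : (t.trunc γ hγt.le).A = (P t.f γ).1 := by
      unfold A
      rw [P_trunc]
    rw [e1]
    have h1 := (P_spec t.f t.ht t.hlt).2 γ hγt
    have h2 := (P_spec r.f r.ht r.hlt).2 γ hγr
    rw [← hPeq] at h2
    have hgood : Good (P t.f γ) := (P_spec t.f γ (hγt.trans t.hlt)).1
    have hp := (piece_spec hgood (t.f γ)).2.2.2 (r.f γ) hγne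
    refine (h1.2.union h2.2).subset ?_
    rintro m ⟨⟨hm1, hm2⟩, hm3⟩
    by_cases hm4 : m ∈ (piece (P t.f γ) (t.f γ)).2
    · right
      refine ⟨r.A_subset_B hm2, fun hm5 => hm3 (hp ⟨hm4, hm5⟩)⟩
    · left
      exact ⟨t.A_subset_B hm1, hm4⟩

/-- Away from the branch through `t`, successors of the root meet `A t` in a small set. -/
lemma root_succ_inter (t : Node) {i : ℕ} (hi : i ≠ t.f 0) :
    (((root.succ i).A \ root.A) ∩ t.A).Finite := by
  rcases eq_or_ne t.ht 0 with h0 | h0
  · have h1 : t.le root := ⟨h0.le, fun β hβ => by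
      rw [h0] at hβ
      exact absurd hβ (not_lt.mpr (zero_le))⟩
    have h2 : t = root := eq_of_le_of_ht h1 h0
    rw [h2]
    have : ((root.succ i).A \ root.A) ∩ root.A = ∅ := by
      ext m
      simp only [mem_inter_iff, Set.mem_sdiff, mem_empty_iff_false, iff_false, not_and]
      exact fun h h' => h.2 h'
    rw [this]
    exact finite_empty
  · have hsucc : (root.succ (t.f 0)).le t := by
      refine ⟨?_, fun β hβ => ?_⟩
      · change (0 : Ordinal.{0}) + 1 ≤ t.ht
        rw [zero_add]
        exact Order.one_le_iff_pos.mpr (pos_iff_ne_zero.mpr h0)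
      · have hβ0 : β = 0 := by
          change β < (0 : Ordinal.{0}) + 1 at hβ
          rw [zero_add] at hβ
          exact Order.lt_one_iff.mp hβ
        rw [hβ0]
        change Function.update root.f root.ht (t.f 0) 0 = t.f 0
        have : root.ht = 0 := rfl
        rw [this, Function.update_self]
    have h1 := B_diff hsucc
    have h2 := root.succ_inter hi
    refine (h1.union h2).subset ?_
    rintro m ⟨⟨hm1, hm2⟩, hm3⟩
    by_cases hm4 : m ∈ (root.succ (t.f 0)).B
    · exact Or.inr ⟨⟨A_subset_B _ hm1, hm4⟩, hm2⟩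
    · exact Or.inl ⟨A_subset_B _ hm3, hm4⟩

end Node

/-- The index set: singletons and the sets `A t`. -/
def Idx : Type := {S : Set ℕ // (∃ n : ℕ, S = {n}) ∨ ∃ t : Node, S = t.A}

/-- the index of an integer -/
def ixn (n : ℕ) : Idx := ⟨{n}, Or.inl ⟨n, rfl⟩⟩

/-- the index of a node -/
noncomputable def ixt (t : Node) : Idx := ⟨t.A, Or.inr ⟨t, rfl⟩⟩

lemma avoid (I : Finset Idx) : ∃ m : ℕ, ∀ S ∈ I, m ∉ S.1 := by
  classical
  have hch : ∀ S : Idx, ∃ j : ℕ, ∀ i, i ≠ j →
      (((Node.root.succ i).A \ Node.root.A) ∩ S.1).Finite := by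
    rintro ⟨S, ⟨n, rfl⟩ | ⟨t, rfl⟩⟩
    · exact ⟨0, fun i _ => (finite_singleton n).subset inter_subset_right⟩
    · exact ⟨t.f 0, fun i hi => t.root_succ_inter hi⟩
  choose j hj using hch
  obtain ⟨i, hi⟩ := Infinite.exists_notMem_finset (I.image j)
  have hfin : (⋃ S ∈ I, ((Node.root.succ i).A \ Node.root.A) ∩ S.1).Finite := by
    apply Set.Finite.biUnion (Finset.finite_toSet I)
    intro S hS
    apply hj
    rintro rfl
    exact hi (Finset.mem_image_of_mem j hS)
  obtain ⟨m, hm1, hm2⟩ := ((Node.root.succ_diff_infinite i).sdiff hfin).nonempty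
  refine ⟨m, fun S hS hmS => hm2 ?_⟩
  exact mem_iUnion₂.mpr ⟨S, hS, hm1, hmS⟩

open Classical in
/-- The point of the cube given by an integer. -/
noncomputable def kap (n : ℕ) : Idx → Bool := fun S => decide (n ∈ S.1)

lemma kap_eq_true {n : ℕ} {S : Idx} : kap n S = true ↔ n ∈ S.1 := by
  classical
  simp [kap]

lemma kap_eq_false {n : ℕ} {S : Idx} : kap n S = false ↔ n ∉ S.1 := by
  classical
  simp [kap]

/-- The compact space -/
def KK : Type := {p : Idx → Bool // p ∈ closure (range kap)}

instance : TopologicalSpace KK :=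
  inferInstanceAs (TopologicalSpace {p : Idx → Bool // p ∈ closure (range kap)})
instance : T2Space KK := inferInstanceAs (T2Space {p : Idx → Bool // p ∈ closure (range kap)})
instance : CompactSpace KK :=
  isCompact_iff_compactSpace.mp (isClosed_closure (s := range kap)).isCompact

/-- the point given by an integer -/
noncomputable def pt (n : ℕ) : KK := ⟨kap n, subset_closure ⟨n, rfl⟩⟩

/-- the coordinate of a point -/
def co (p : KK) (S : Idx) : Bool := p.1 S

lemma co_pt (n : ℕ) (S : Idx) : co (pt n) S = kap n S := rfl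

lemma ext_co {p p' : KK} (h : ∀ S, co p S = co p' S) : p = p' := Subtype.ext (funext h)

lemma continuous_co (S : Idx) : Continuous fun p : KK => co p S :=
  (continuous_apply S).comp continuous_subtype_val

lemma isOpen_co (S : Idx) (b : Bool) : IsOpen {p : KK | co p S = b} :=
  (isOpen_discrete {b}).preimage (continuous_co S)

lemma dense_pt : DenseRange pt := by
  intro p
  have h : Subtype.val '' (range pt) = range kap := by
    rw [← range_comp]
    rfl
  have h2 : p.1 ∈ closure (Subtype.val '' (range pt)) := by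
    rw [h]
    exact p.2
  exact closure_subtype.mpr h2

/-- A point with coordinate one at the singleton of `n` is the point `n`. -/
lemma eq_pt_of_co {p : KK} {n : ℕ} (h : co p (ixn n) = true) : p = pt n := by
  by_contra hne
  have hO : IsOpen ({q : KK | co q (ixn n) = true} ∩ {pt n}ᶜ) :=
    (isOpen_co _ _).inter isOpen_compl_singleton
  obtain ⟨q, ⟨hq1, hq2⟩, ⟨m, rfl⟩⟩ := dense_pt.inter_open_nonempty _ hO ⟨p, h, hne⟩
  have h1 : m ∈ ({n} : Set ℕ) := kap_eq_true.mp hq1
  rw [mem_singleton_iff] at h1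
  exact hq2 (by rw [h1]; rfl)

lemma pt_co_self (n : ℕ) : co (pt n) (ixn n) = true := kap_eq_true.mpr (mem_singleton n)

lemma pt_injective : Function.Injective pt := by
  intro m n h
  have h1 : co (pt m) (ixn n) = true := by rw [h]; exact pt_co_self n
  exact kap_eq_true.mp h1

lemma isOpen_pt (n : ℕ) : IsOpen {pt n} := by
  have : {pt n} = {p : KK | co p (ixn n) = true} := by
    ext p
    refine ⟨fun h => ?_, fun h => eq_pt_of_co h⟩
    rw [mem_singleton_iff.mp h]
    exact pt_co_self n
  rw [this]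
  exact isOpen_co _ _

/-- Inclusions modulo finite sets are respected by the points which are not integers. -/
lemma co_of_finite {p : KK} (hp : ∀ n, p ≠ pt n) {L R : Finset Idx}
    (hfin : {m : ℕ | (∀ S ∈ L, m ∈ S.1) ∧ ∀ S ∈ R, m ∉ S.1}.Finite)
    (hL : ∀ S ∈ L, co p S = true) : ∃ S ∈ R, co p S = true := by
  by_contra hcon
  push Not at hcon
  have hR : ∀ S ∈ R, co p S = false := fun S hS => by
    have := hcon S hS
    rwa [ne_eq, Bool.not_eq_true] at this
  set F : Set KK := pt '' {m : ℕ | (∀ S ∈ L, m ∈ S.1) ∧ ∀ S ∈ R, m ∉ S.1} with hF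
  have hFc : IsClosed F := (hfin.image pt).isClosed
  have hO : IsOpen ((⋂ S ∈ L, {q : KK | co q S = true}) ∩ (⋂ S ∈ R, {q : KK | co q S = false}) ∩
      Fᶜ) :=
    ((isOpen_biInter_finset fun S _ => isOpen_co S true).inter
      (isOpen_biInter_finset fun S _ => isOpen_co S false)).inter hFc.isOpen_compl
  obtain ⟨q, ⟨⟨hq1, hq2⟩, hq3⟩, ⟨m, rfl⟩⟩ := dense_pt.inter_open_nonempty _ hO ⟨p, ⟨by
    simp only [mem_iInter]
    exact hL, by
    simp only [mem_iInter]
    exact hR⟩, by
    rintro ⟨m, _, hm⟩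
    exact hp m hm.symm⟩
  simp only [mem_iInter] at hq1 hq2
  apply hq3
  exact ⟨m, ⟨fun S hS => kap_eq_true.mp (hq1 S hS), fun S hS => kap_eq_false.mp (hq2 S hS)⟩, rfl⟩

/-- the point at infinity -/
def infp : KK := ⟨fun _ => false, by
  rw [mem_closure_iff]
  intro U hU hUm
  obtain ⟨I, u, hu, hsub⟩ := isOpen_pi_iff.mp hU _ hUm
  obtain ⟨m, hm⟩ := avoid I
  refine ⟨kap m, hsub ?_, m, rfl⟩
  intro S hS
  have h1 : kap m S = false := kap_eq_false.mpr (hm S hS)
  rw [h1]
  exact (hu S hS).2⟩

lemma co_infp (S : Idx) : co infp S = false := rfl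

/-- The compact space is scattered. -/
theorem scattered_KK (S : Set KK) (hS : S.Nonempty) :
    ∃ p ∈ S, ∃ U : Set KK, IsOpen U ∧ U ∩ S = {p} := by
  classical
  by_cases h1 : ∃ n, pt n ∈ S
  · obtain ⟨n, hn⟩ := h1
    refine ⟨pt n, hn, {pt n}, isOpen_pt n, ?_⟩
    ext q
    simp only [mem_inter_iff, mem_singleton_iff, and_iff_left_iff_imp]
    rintro rfl
    exact hn
  push Not at h1
  have hne : ∀ p ∈ S, ∀ n, p ≠ pt n := fun p hp n h => h1 n (h ▸ hp)
  by_cases h2 : ∃ t : Node, ∃ p ∈ S, co p (ixt t) = true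
  · -- a node of minimal height
    have h3 : {α : Ordinal.{0} | ∃ t : Node, t.ht = α ∧ ∃ p ∈ S, co p (ixt t) = true}.Nonempty := by
      obtain ⟨t, p, hp, hpt⟩ := h2
      exact ⟨t.ht, t, rfl, p, hp, hpt⟩
    obtain ⟨α, ⟨t, rfl, p, hp, hpt⟩, hmin⟩ :=
      WellFounded.has_min (wellFounded_lt (α := Ordinal.{0})) _ h3
    have key : ∀ p ∈ S, co p (ixt t) = true → ∀ r : Node, (co p (ixt r) = true ↔ t.le r) := by
      intro p hp hpt r
      constructor
      · intro hpr
        by_contra hcon
        obtain ⟨s, hs1, hs2, hs3, hs4⟩ := Node.exists_meet t r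
        obtain ⟨S', hS', hS''⟩ := co_of_finite (hne p hp) (L := {ixt t, ixt r}) (R := {ixt s})
          (hs4.subset (by
            rintro m ⟨hm1, hm2⟩
            exact ⟨⟨hm1 (ixt t) (by simp), hm1 (ixt r) (by simp)⟩, hm2 (ixt s) (by simp)⟩))
          (by
            intro S' hS'
            rw [Finset.mem_insert, Finset.mem_singleton] at hS'
            rcases hS' with rfl | rfl
            · exact hpt
            · exact hpr)
        rw [Finset.mem_singleton] at hS'
        rw [hS'] at hS''
        exact hmin s.ht ⟨s, rfl, p, hp, hS''⟩ (hs3 hcon)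
      · intro htr
        obtain ⟨S', hS', hS''⟩ := co_of_finite (hne p hp) (L := {ixt t}) (R := {ixt r})
          ((Node.A_diff htr).subset (by
            rintro m ⟨hm1, hm2⟩
            exact ⟨hm1 (ixt t) (by simp), hm2 (ixt r) (by simp)⟩))
          (by
            intro S' hS'
            rw [Finset.mem_singleton] at hS'
            rw [hS']
            exact hpt)
        rw [Finset.mem_singleton] at hS'
        rwa [hS'] at hS''
    refine ⟨p, hp, {q : KK | co q (ixt t) = true}, isOpen_co _ _, ?_⟩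
    ext q
    simp only [mem_inter_iff, mem_singleton_iff]
    constructor
    · rintro ⟨hq1, hq2⟩
      apply ext_co
      rintro ⟨S', ⟨n, rfl⟩ | ⟨r, rfl⟩⟩
      · have e1 : co q (ixn n) = false := by
          rw [← Bool.not_eq_true]
          exact fun h => hne q hq2 n (eq_pt_of_co h)
        have e2 : co p (ixn n) = false := by
          rw [← Bool.not_eq_true]
          exact fun h => hne p hp n (eq_pt_of_co h)
        exact e1.trans e2.symm
      · have e1 := key q hq2 hq1 r
        have e2 := key p hp hpt r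
        have e3 : co q (ixt r) = true ↔ co p (ixt r) = true := e1.trans e2.symm
        exact Bool.eq_iff_iff.mpr e3
    · rintro rfl
      exact ⟨hpt, hp⟩
  · push Not at h2
    obtain ⟨p, hp⟩ := hS
    have key : ∀ q ∈ S, q = infp := by
      intro q hq
      apply ext_co
      rintro ⟨S', ⟨n, rfl⟩ | ⟨r, rfl⟩⟩
      · have e1 : co q (ixn n) = false := by
          rw [← Bool.not_eq_true]
          exact fun h => hne q hq n (eq_pt_of_co h)
        exact e1
      · have e1 := h2 r q hq
        rwa [ne_eq, Bool.not_eq_true] at e1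
    refine ⟨p, hp, univ, isOpen_univ, ?_⟩
    ext q
    simp only [univ_inter, mem_singleton_iff]
    constructor
    · intro hq
      rw [key q hq, key p hp]
    · rintro rfl
      exact hp

end Pool.Agent.Lib.MP_c718d4_an
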