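import Pool.Agent.Lib.MP_c718d4_an.NoMLURMain
import Pool.Agent.Lib.MP_c718d4_an.Dual

/-!
# Sharper forms of the renorming obstruction

The stabilisation argument of `NoMLURMain` gives more than the failure of midpoint local uniform
rotundity: the perturbations are bounded away from zero in a fixed direction of the dual, and the
same argument around the indicator of a node gives weakly convergent sequences of the sphere which
do not converge in norm.
-/

open Set Filter Topology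

namespace Pool.Agent.Lib.MP_c718d4_an

/-- initial segments of `x` are half sums of two indicators -/
def Half (x : X0) : Prop := ∀ k : ℕ, ∃ E E' : Finset ℕ, ∀ m < k, (x : LI) m = hv E E' m

theorem exists_stable (q : Seminorm ℝ X0) : ∃ t0 : Node, ∀ x : X0, Cl t0 x → Half x →
    ∀ s : Node, t0.le s → ∀ k : ℕ, ∀ ε > 0, ∃ y : X0, Cl s y ∧
      (∀ m < k, (y : LI) m = (x : LI) m) ∧ q y < q x + ε := by
  classical
  obtain ⟨t0, ht0⟩ := stab (ι := ℕ × Finset ℕ × Finset ℕ × ℚ)
    (fun i t => ∃ y : X0, Cl t y ∧ (∀ m < i.1, (y : LI) m = hv i.2.1 i.2.2.1 m) ∧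
      q y < (i.2.2.2 : ℝ)) (by
      rintro i s t hst ⟨y, hy1, hy2⟩
      exact ⟨y, Cl_mono hst hy1, hy2⟩)
  refine ⟨t0, fun x hx hxh s hs k ε hε => ?_⟩
  obtain ⟨r, hr1, hr2⟩ := exists_rat_btwn (show q x < q x + ε by linarith)
  obtain ⟨E, E', hval⟩ := hxh k
  obtain ⟨y, hy1, hy2, hy3⟩ := ht0 (k, E, E', r) s hs ⟨x, hx, hval, hr1⟩
  refine ⟨y, hy1, fun m hm => ?_, lt_trans hy3 hr2⟩
  rw [hy2 m hm, hval m hm]

lemma Half_xx (t : Node) : Half (xx t) := by
  classical
  intro k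
  refine ⟨(Finset.range k).filter (· ∈ (t.succ 0).A), (Finset.range k).filter (· ∈ (t.succ 1).A),
    fun m hm => ?_⟩
  have e1 : (if m ∈ (Finset.range k).filter (· ∈ (t.succ 0).A) then (1 : ℝ) else 0) =
      ind (t.succ 0).A m := by
    by_cases h : m ∈ (t.succ 0).A
    · rw [if_pos (by rw [Finset.mem_filter]; exact ⟨Finset.mem_range.mpr hm, h⟩), ind_mem h]
    · rw [if_neg (by rw [Finset.mem_filter]; exact fun h' => h h'.2), ind_notMem h]
  have e2 : (if m ∈ (Finset.range k).filter (· ∈ (t.succ 1).A) then (1 : ℝ) else 0) =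
      ind (t.succ 1).A m := by
    by_cases h : m ∈ (t.succ 1).A
    · rw [if_pos (by rw [Finset.mem_filter]; exact ⟨Finset.mem_range.mpr hm, h⟩), ind_mem h]
    · rw [if_neg (by rw [Finset.mem_filter]; exact fun h' => h h'.2), ind_notMem h]
  unfold hv
  rw [e1, e2, xx_apply]

/-- the indicator of a node as an element of the space -/
noncomputable def nd (t : Node) : X0 := ⟨ind t.A, indA_mem t⟩

lemma nd_apply (t : Node) (m : ℕ) : (nd t : LI) m = ind t.A m := rfl

lemma Half_nd (t : Node) : Half (nd t) := by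
  classical
  intro k
  refine ⟨(Finset.range k).filter (· ∈ t.A), (Finset.range k).filter (· ∈ t.A), fun m hm => ?_⟩
  have e1 : (if m ∈ (Finset.range k).filter (· ∈ t.A) then (1 : ℝ) else 0) = ind t.A m := by
    by_cases h : m ∈ t.A
    · rw [if_pos (by rw [Finset.mem_filter]; exact ⟨Finset.mem_range.mpr hm, h⟩), ind_mem h]
    · rw [if_neg (by rw [Finset.mem_filter]; exact fun h' => h h'.2), ind_notMem h]
  unfold hv
  rw [e1, nd_apply]
  ring

lemma Cl_nd (t : Node) : Cl t (nd t) := by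
  constructor
  · apply tendsto_nhds_of_eventually_eq
    rw [eventually_inf_principal]
    exact Eventually.of_forall fun m hm => by rw [nd_apply, ind_mem hm]
  · apply tendsto_nhds_of_eventually_eq
    rw [eventually_inf_principal]
    exact Eventually.of_forall fun m hm => by
      rw [nd_apply, ind_notMem (fun h => hm (t.A_subset_B h))]

/-! ### Perturbations that do not tend weakly to zero -/

theorem core_mid (q : Seminorm ℝ X0) {c C : ℝ} (hc : 0 < c) (hC : 0 < C)
    (hq : ∀ x : X0, c * ‖x‖ ≤ q x ∧ q x ≤ C * ‖x‖) :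
    ∃ (D : Set ℕ) (x : X0) (u : ℕ → X0) (e : ℕ → ℝ) (S : ℝ), D.Infinite ∧ 0 < q x ∧
      Tendsto e atTop (𝓝 0) ∧ (∀ n, q (x + u n) ≤ q x + e n) ∧ (∀ n, q (x - u n) ≤ q x + e n) ∧
      (∀ n, q (u n) ≤ S) ∧ ∀ n, ∃ K, ∀ m, K ≤ m → m ∈ D → (u n : LI) m = 1 / 2 := by
  classical
  obtain ⟨t0, ht0⟩ := exists_stable q
  set x := xx t0 with hx
  have hst := ht0 x (xx_Cl t0) (Half_xx t0)
  have hA : ∀ (i : ℕ) (k : ℕ) {ε : ℝ}, 0 < ε → ∃ (z : X0) (K : ℕ), k ≤ K ∧
      (∀ m < k, (z : LI) m = (x : LI) m) ∧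
      (∀ m, K ≤ m → (z : LI) m = ind (t0.succ i).A m) ∧ q z < q x + ε := fun i k {ε} hε =>
    claimA q hc hC hq x (t0.succ i) (fun s hs => hst s (Node.le_trans (t0.le_succ i) hs)) k hε
  have hB : ∀ n k : ℕ, ∃ (z z' : X0) (K : ℕ), k ≤ K ∧
      (∀ m < k, (z : LI) m = (x : LI) m) ∧ (∀ m < k, (z' : LI) m = (x : LI) m) ∧
      (∀ m, K ≤ m → (z : LI) m = ind (t0.succ 0).A m) ∧
      (∀ m, K ≤ m → (z' : LI) m = ind (t0.succ 1).A m) ∧
      q z < q x + 1 / ((n : ℝ) + 1) ∧ q z' < q x + 1 / ((n : ℝ) + 1) := by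
    intro n k
    obtain ⟨z, K, h1, h2, h3, h4⟩ := hA 0 k (ε := 1 / ((n : ℝ) + 1)) (by positivity)
    obtain ⟨z', K', h1', h2', h3', h4'⟩ := hA 1 k (ε := 1 / ((n : ℝ) + 1)) (by positivity)
    exact ⟨z, z', max K K', h1.trans (le_max_left _ _), h2, h2',
      fun m hm => h3 m ((le_max_left _ _).trans hm),
      fun m hm => h3' m ((le_max_right _ _).trans hm), h4, h4'⟩
  choose z z' K hK hz hz' hzK hzK' hqz hqz' using hB
  let k : ℕ → ℕ := fun n => Nat.rec 0 (fun n kn => K n kn) n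
  have hks : ∀ n, k (n + 1) = K n (k n) := fun n => rfl
  have hkmono : Monotone k := monotone_nat_of_le_succ fun n => by
    rw [hks]
    exact hK n (k n)
  let a : ℕ → X0 := fun n => z n (k n)
  let b : ℕ → X0 := fun n => z' n (k n)
  have hqx : 0 ≤ q x := apply_nonneg q x
  have hfrac : ∀ n : ℕ, 1 / ((n : ℝ) + 1) ≤ 1 := fun n => by
    rw [div_le_one (by positivity)]
    have : (0 : ℝ) ≤ n := Nat.cast_nonneg n
    linarith
  set M : ℝ := (q x + 1) / c with hM
  have hM0 : 0 < M := by positivity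
  have haM : ∀ n, ‖a n‖ ≤ M := by
    intro n
    rw [hM, le_div_iff₀ hc, mul_comm]
    have h1 := (hq (a n)).1
    have h2 := hqz n (k n)
    have h3 := hfrac n
    change q (a n) < _ at h2
    linarith
  have hbM : ∀ n, ‖b n‖ ≤ M := by
    intro n
    rw [hM, le_div_iff₀ hc, mul_comm]
    have h1 := (hq (b n)).1
    have h2 := hqz' n (k n)
    have h3 := hfrac n
    change q (b n) < _ at h2
    linarith
  have hxM : ‖x‖ ≤ M := by
    rw [hM, le_div_iff₀ hc, mul_comm]
    have h1 := (hq x).1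
    linarith
  -- the defects have disjoint supports
  let w : ℕ → X0 := fun n => a n + b n - (2 : ℝ) • x
  have hwv : ∀ n m, (w n : LI) m = (a n : LI) m + (b n : LI) m - 2 * (x : LI) m :=
    fun n m => rfl
  have hw1 : ∀ n m, m < k n → (w n : LI) m = 0 := by
    intro n m hm
    rw [hwv, hz n (k n) m hm, hz' n (k n) m hm]
    ring
  have hw2 : ∀ n m, k (n + 1) ≤ m → (w n : LI) m = 0 := by
    intro n m hm
    rw [hwv, hzK n (k n) m hm, hzK' n (k n) m hm, hx, xx_apply]
    ring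
  have hwM : ∀ n m, |(w n : LI) m| ≤ 4 * M := by
    intro n m
    rw [hwv]
    have h1 : |(a n : LI) m| ≤ M := ((a n : LI).norm_coe_le_norm m).trans (haM n)
    have h2 : |(b n : LI) m| ≤ M := ((b n : LI).norm_coe_le_norm m).trans (hbM n)
    have h3 : |(x : LI) m| ≤ M := ((x : LI).norm_coe_le_norm m).trans hxM
    rw [abs_le] at h1 h2 h3 ⊢
    constructor <;> linarith [h1.1, h1.2, h2.1, h2.2, h3.1, h3.2]
  have hsumw : ∀ N m, |∑ n ∈ Finset.range N, (w n : LI) m| ≤ 4 * M := by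
    intro N m
    by_cases hex : ∃ n0 ∈ Finset.range N, (w n0 : LI) m ≠ 0
    · obtain ⟨n0, hn0, hne⟩ := hex
      have hkn : k n0 ≤ m := by
        by_contra hcon
        exact hne (hw1 n0 m (not_le.mp hcon))
      have hkn' : m < k (n0 + 1) := by
        by_contra hcon
        exact hne (hw2 n0 m (not_lt.mp hcon))
      rw [Finset.sum_eq_single_of_mem n0 hn0]
      · exact hwM n0 m
      · intro n _ hnn
        rcases Nat.lt_or_gt_of_ne hnn with h | h
        · apply hw2
          exact (hkmono (by omega : n + 1 ≤ n0)).trans hkn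
        · apply hw1
          exact hkn'.trans_le (hkmono (by omega : n0 + 1 ≤ n))
    · push Not at hex
      rw [Finset.sum_eq_zero hex, abs_zero]
      positivity
  -- the perturbations
  let u : ℕ → X0 := fun N => ((N + 1 : ℕ) : ℝ)⁻¹ • ∑ n ∈ Finset.range (N + 1), a n - x
  let v : ℕ → X0 := fun N => ((N + 1 : ℕ) : ℝ)⁻¹ • ∑ n ∈ Finset.range (N + 1), b n - x
  let e0 : ℕ → ℝ := fun N => (N : ℝ)⁻¹ * ∑ n ∈ Finset.range N, (1 : ℝ) / (n + 1)
  let e : ℕ → ℝ := fun N => e0 (N + 1) + C * (((N + 1 : ℕ) : ℝ)⁻¹ * (4 * M))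
  have he0 : ∀ N, 0 ≤ e0 N := fun N => by positivity
  have hcast : ∀ N : ℕ, (0 : ℝ) < ((N + 1 : ℕ) : ℝ) := fun N => by positivity
  have havg : ∀ (y : ℕ → X0), (∀ n, q (y n) < q x + 1 / ((n : ℝ) + 1)) → ∀ N : ℕ,
      q (((N + 1 : ℕ) : ℝ)⁻¹ • ∑ n ∈ Finset.range (N + 1), y n) ≤ q x + e0 (N + 1) := by
    intro y hy N
    refine (q_avg_le q y).trans ?_
    have h1 : ∑ n ∈ Finset.range (N + 1), q (y n) ≤
        ∑ n ∈ Finset.range (N + 1), (q x + 1 / ((n : ℝ) + 1)) :=
      Finset.sum_le_sum fun n _ => (hy n).le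
    rw [Finset.sum_add_distrib, Finset.sum_const, Finset.card_range, nsmul_eq_mul] at h1
    calc ((N + 1 : ℕ) : ℝ)⁻¹ * ∑ n ∈ Finset.range (N + 1), q (y n) ≤
        ((N + 1 : ℕ) : ℝ)⁻¹ * (((N + 1 : ℕ) : ℝ) * q x +
          ∑ n ∈ Finset.range (N + 1), 1 / ((n : ℝ) + 1)) :=
          mul_le_mul_of_nonneg_left h1 (inv_pos.mpr (hcast N)).le
      _ = q x + e0 (N + 1) := by
          rw [mul_add, ← mul_assoc, inv_mul_cancel₀ (hcast N).ne', one_mul]
  have hxu : ∀ N, q (x + u N) ≤ q x + e0 (N + 1) := by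
    intro N
    have e1 : x + u N = ((N + 1 : ℕ) : ℝ)⁻¹ • ∑ n ∈ Finset.range (N + 1), a n := by
      simp only [u]
      abel
    rw [e1]
    exact havg a (fun n => hqz n (k n)) N
  have hxv : ∀ N, q (x + v N) ≤ q x + e0 (N + 1) := by
    intro N
    have e1 : x + v N = ((N + 1 : ℕ) : ℝ)⁻¹ • ∑ n ∈ Finset.range (N + 1), b n := by
      simp only [v]
      abel
    rw [e1]
    exact havg b (fun n => hqz' n (k n)) N
  have huv : ∀ N, ‖u N + v N‖ ≤ ((N + 1 : ℕ) : ℝ)⁻¹ * (4 * M) := by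
    intro N
    have h1 : ‖((u N + v N : X0) : LI)‖ ≤ ((N + 1 : ℕ) : ℝ)⁻¹ * (4 * M) := by
      rw [BoundedContinuousFunction.norm_le (by positivity)]
      intro m
      have h2 : ((u N + v N : X0) : LI) m =
          ((N + 1 : ℕ) : ℝ)⁻¹ * ∑ n ∈ Finset.range (N + 1), (w n : LI) m := by
        have h3 : ((u N + v N : X0) : LI) m = (u N : LI) m + (v N : LI) m := rfl
        have h4 : (u N : LI) m =
            ((N + 1 : ℕ) : ℝ)⁻¹ * ∑ n ∈ Finset.range (N + 1), (a n : LI) m - (x : LI) m := by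
          rw [← coe_avg]
          rfl
        have h5 : (v N : LI) m =
            ((N + 1 : ℕ) : ℝ)⁻¹ * ∑ n ∈ Finset.range (N + 1), (b n : LI) m - (x : LI) m := by
          rw [← coe_avg]
          rfl
        rw [h3, h4, h5]
        simp only [hwv]
        rw [Finset.sum_sub_distrib, Finset.sum_add_distrib, Finset.sum_const, Finset.card_range,
          nsmul_eq_mul, mul_sub, mul_add]
        have h6 : ((N + 1 : ℕ) : ℝ)⁻¹ * (((N + 1 : ℕ) : ℝ) * (2 * (x : LI) m)) =
            2 * (x : LI) m := by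
          rw [← mul_assoc, inv_mul_cancel₀ (hcast N).ne', one_mul]
        rw [h6]
        ring
      rw [h2, Real.norm_eq_abs, abs_mul, abs_of_pos (inv_pos.mpr (hcast N))]
      exact mul_le_mul_of_nonneg_left (hsumw (N + 1) m) (inv_pos.mpr (hcast N)).le
    exact h1
  have hxu' : ∀ N, q (x - u N) ≤ q x + e N := by
    intro N
    have e1 : x - u N = (x + v N) - (u N + v N) := by abel
    rw [e1]
    refine (map_sub_le_add q _ _).trans ?_
    have h1 := hxv N
    have h2 : q (u N + v N) ≤ C * (((N + 1 : ℕ) : ℝ)⁻¹ * (4 * M)) :=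
      (hq _).2.trans (mul_le_mul_of_nonneg_left (huv N) hC.le)
    simp only [e]
    linarith
  -- the perturbations are not small
  have hubig : ∀ N m, k (N + 1) ≤ m → m ∈ (t0.succ 0).A \ (t0.succ 1).A →
      (u N : LI) m = 1 / 2 := by
    intro N m hm2 hm1
    have h3 : ∀ n ∈ Finset.range (N + 1), (a n : LI) m = 1 := by
      intro n hn
      have hn' : n + 1 ≤ N + 1 := by
        have := Finset.mem_range.mp hn
        omega
      have h4 := hzK n (k n) m ((hkmono hn').trans hm2)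
      change (a n : LI) m = _ at h4
      rw [h4, ind_mem hm1.1]
    have h4 : (x : LI) m = 1 / 2 := by
      rw [hx, xx_apply, ind_mem hm1.1, ind_notMem hm1.2]
      norm_num
    have h6 : (u N : LI) m =
        ((N + 1 : ℕ) : ℝ)⁻¹ * ∑ n ∈ Finset.range (N + 1), (a n : LI) m - (x : LI) m := by
      rw [← coe_avg]
      rfl
    rw [h6, Finset.sum_congr rfl h3, Finset.sum_const, Finset.card_range, nsmul_eq_mul, mul_one,
      inv_mul_cancel₀ (hcast N).ne', h4]
    norm_num
  have hxpos : 0 < q x := by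
    obtain ⟨m, hm1, hm2⟩ := (succ_diff_inf t0 (i := 0) (j := 1) (by norm_num)).exists_gt 0
    have h4 : (x : LI) m = 1 / 2 := by
      rw [hx, xx_apply, ind_mem hm1.1, ind_notMem hm1.2]
      norm_num
    have h6 : |(x : LI) m| ≤ ‖x‖ := (x : LI).norm_coe_le_norm m
    rw [h4, abs_of_pos (by norm_num)] at h6
    have h7 := (hq x).1
    have h8 : 0 < c * ‖x‖ := by
      apply mul_pos hc
      linarith
    linarith
  have hte : Tendsto e atTop (𝓝 0) := by
    have h1 : Tendsto (fun N => e0 (N + 1)) atTop (𝓝 0) :=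
      cesaro_inv.comp (tendsto_add_atTop_nat 1)
    have h2 : Tendsto (fun N : ℕ => C * (((N + 1 : ℕ) : ℝ)⁻¹ * (4 * M))) atTop (𝓝 0) := by
      have h3 : Tendsto (fun N : ℕ => ((N + 1 : ℕ) : ℝ)⁻¹) atTop (𝓝 0) :=
        tendsto_inv_atTop_nhds_zero_nat.comp (tendsto_add_atTop_nat 1)
      have h4 := (h3.mul_const (4 * M)).const_mul C
      rwa [zero_mul, mul_zero] at h4
    have h3 := h1.add h2
    rwa [add_zero] at h3
  have hele : ∀ N, e0 (N + 1) ≤ e N := fun N => by
    have : 0 ≤ C * (((N + 1 : ℕ) : ℝ)⁻¹ * (4 * M)) := by positivity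
    simp only [e]
    linarith
  have hubd : ∀ N, q (u N) ≤ C * (2 * M) := by
    intro N
    refine (hq _).2.trans (mul_le_mul_of_nonneg_left ?_ hC.le)
    have h1 : ‖u N‖ = ‖(u N : LI)‖ := rfl
    rw [h1, BoundedContinuousFunction.norm_le (by positivity)]
    intro m
    have h6 : (u N : LI) m =
        ((N + 1 : ℕ) : ℝ)⁻¹ * ∑ n ∈ Finset.range (N + 1), (a n : LI) m - (x : LI) m := by
      rw [← coe_avg]
      rfl
    rw [h6, Real.norm_eq_abs]
    have h7 : |((N + 1 : ℕ) : ℝ)⁻¹ * ∑ n ∈ Finset.range (N + 1), (a n : LI) m| ≤ M := by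
      rw [abs_mul, abs_of_pos (inv_pos.mpr (hcast N)), inv_mul_le_iff₀ (hcast N)]
      refine (Finset.abs_sum_le_sum_abs _ _).trans ?_
      have h8 : ∑ n ∈ Finset.range (N + 1), |(a n : LI) m| ≤ ∑ n ∈ Finset.range (N + 1), M :=
        Finset.sum_le_sum fun n _ => ((a n : LI).norm_coe_le_norm m).trans (haM n)
      rwa [Finset.sum_const, Finset.card_range, nsmul_eq_mul] at h8
    have h8 : |(x : LI) m| ≤ M := ((x : LI).norm_coe_le_norm m).trans hxM
    refine (abs_sub _ _).trans ?_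
    linarith
  refine ⟨(t0.succ 0).A \ (t0.succ 1).A, x, u, e, C * (2 * M),
    succ_diff_inf t0 (i := 0) (j := 1) (by norm_num), hxpos, hte, fun N => (hxu N).trans ?_, hxu',
    hubd, fun N => ⟨k (N + 1), fun m hm hmD => hubig N m hm hmD⟩⟩
  have := hele N
  linarith

/-- Rescaling of the perturbations. -/
lemma rescale {E : Type*} [AddCommGroup E] [Module ℝ E] (q : Seminorm ℝ E) {x : E}
    (hx : 0 < q x) (u : ℕ → E) (e : ℕ → ℝ) (he : Tendsto e atTop (𝓝 0))
    (h1 : ∀ n, q (x + u n) ≤ q x + e n) (h2 : ∀ n, q (x - u n) ≤ q x + e n) {S : ℝ}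
    (hS : ∀ n, q (u n) ≤ S) : ∃ a b : ℝ, 0 < a ∧ 0 < b ∧ q (a • x) = 1 ∧
      (∀ n, q (b • u n) ≤ 1) ∧ Tendsto (fun n => q (a • x + b • u n)) atTop (𝓝 1) ∧
      Tendsto (fun n => q (a • x - b • u n)) atTop (𝓝 1) := by
  set S' := max S (q x) with hS'
  have hS'0 : 0 < S' := lt_max_of_lt_right hx
  set l : ℝ := q x / S' with hl
  have hl0 : 0 < l := by positivity
  have hl1 : l ≤ 1 := by
    rw [hl, div_le_one hS'0]
    exact le_max_right _ _
  have key : ∀ w : E, ∀ a : ℝ, q (x + w) ≤ q x + a → q (x + l • w) ≤ q x + l * a := by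
    intro w a hw
    have e1 : x + l • w = (1 - l) • x + l • (x + w) := by
      rw [smul_add, sub_smul, one_smul]
      abel
    rw [e1]
    refine (map_add_le_add q _ _).trans ?_
    rw [map_smul_eq_mul, map_smul_eq_mul, Real.norm_eq_abs, Real.norm_eq_abs,
      abs_of_nonneg (sub_nonneg.mpr hl1), abs_of_pos hl0]
    nlinarith
  have key1 : ∀ n, q (x + l • u n) ≤ q x + l * e n := fun n => key (u n) (e n) (h1 n)
  have key2 : ∀ n, q (x - l • u n) ≤ q x + l * e n := fun n => by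
    have := key (-u n) (e n) (by rw [← sub_eq_add_neg]; exact h2 n)
    rwa [smul_neg, ← sub_eq_add_neg] at this
  have key3 : ∀ n, 2 * q x ≤ q (x + l • u n) + q (x - l • u n) := fun n => by
    have h4 := map_add_le_add q (x + l • u n) (x - l • u n)
    have e2 : x + l • u n + (x - l • u n) = (2 : ℝ) • x := by
      rw [two_smul]
      abel
    rw [e2, map_smul_eq_mul, Real.norm_eq_abs, abs_of_pos (by norm_num : (0 : ℝ) < 2)] at h4
    exact h4
  have hle : Tendsto (fun n => l * e n) atTop (𝓝 0) := by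
    have := he.const_mul l
    rwa [mul_zero] at this
  have a1 : Tendsto (fun n => q x - l * e n) atTop (𝓝 (q x)) := by
    have := hle.const_sub (q x)
    rwa [sub_zero] at this
  have a2 : Tendsto (fun n => q x + l * e n) atTop (𝓝 (q x)) := by
    have := hle.const_add (q x)
    rwa [add_zero] at this
  have t1 : Tendsto (fun n => q (x + l • u n)) atTop (𝓝 (q x)) := by
    refine tendsto_of_tendsto_of_tendsto_of_le_of_le a1 a2 (fun n => ?_) key1
    have := key2 n
    have := key3 n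
    simp only
    linarith
  have t2 : Tendsto (fun n => q (x - l • u n)) atTop (𝓝 (q x)) := by
    refine tendsto_of_tendsto_of_tendsto_of_le_of_le a1 a2 (fun n => ?_) key2
    have := key1 n
    have := key3 n
    simp only
    linarith
  have hqn : ∀ w : E, q ((q x)⁻¹ • w) = (q x)⁻¹ * q w := fun w => by
    rw [map_smul_eq_mul, Real.norm_eq_abs, abs_of_pos (inv_pos.mpr hx)]
  refine ⟨(q x)⁻¹, (q x)⁻¹ * l, inv_pos.mpr hx, by positivity,
    by rw [hqn, inv_mul_cancel₀ hx.ne'], fun n => ?_, ?_, ?_⟩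
  · rw [mul_smul, hqn, map_smul_eq_mul, Real.norm_eq_abs, abs_of_pos hl0]
    have h5 : q (u n) ≤ S' := (hS n).trans (le_max_left _ _)
    have e3 : (q x)⁻¹ * (l * q (u n)) = q (u n) / S' := by
      rw [hl]
      field_simp
    rw [e3]
    exact (div_le_one hS'0).mpr h5
  · have e4 : ∀ n, q ((q x)⁻¹ • x + ((q x)⁻¹ * l) • u n) = (q x)⁻¹ * q (x + l • u n) := fun n => by
      rw [mul_smul, ← smul_add, hqn]
    simp only [e4]
    have := t1.const_mul (q x)⁻¹
    rwa [inv_mul_cancel₀ hx.ne'] at this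
  · have e4 : ∀ n, q ((q x)⁻¹ • x - ((q x)⁻¹ * l) • u n) = (q x)⁻¹ * q (x - l • u n) := fun n => by
      rw [mul_smul, ← smul_sub, hqn]
    simp only [e4]
    have := t2.const_mul (q x)⁻¹
    rwa [inv_mul_cancel₀ hx.ne'] at this

end Pool.Agent.Lib.MP_c718d4_an
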