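import Pool.Agent.Lib.MP_c718d4_an.H1.Comp
import Pool.Agent.Lib.MP_c718d4_an.Main

/-!
# Continuous functions on the compact space

Restriction to the integers identifies the continuous functions on the compact space with the
sum of the space `X0` and the constants.
-/

open Set Filter Topology

namespace Pool.Agent.Lib.MP_c718d4_an

/-! ### The space is closed under multiplication -/

lemma ind_mul_mem (S T : Idx) : ind S.1 * ind T.1 ∈ X0 := by
  rw [ind_mul_ind]
  have hsmall : ∀ {U : Set ℕ}, U.Finite → ind U ∈ X0 := by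
    intro U hU
    obtain ⟨N, hN⟩ := hU.bddAbove
    apply mem_of_eventually_zero (N := N + 1)
    intro n hn
    apply ind_notMem
    intro h
    have := hN h
    omega
  rcases S with ⟨S, ⟨n, rfl⟩ | ⟨t, rfl⟩⟩
  · exact hsmall ((finite_singleton n).subset inter_subset_left)
  · rcases T with ⟨T, ⟨n, rfl⟩ | ⟨r, rfl⟩⟩
    · exact hsmall ((finite_singleton n).subset inter_subset_right)
    · obtain ⟨s, hs1, hs2, _, hs4⟩ := Node.exists_meet t r
      have h5 : (s.A \ (t.A ∩ r.A)).Finite := by
        refine ((Node.A_diff hs1).union (Node.A_diff hs2)).subset ?_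
        rintro m ⟨hm1, hm2⟩
        by_cases h : m ∈ t.A
        · exact Or.inr ⟨hm1, fun h' => hm2 ⟨h, h'⟩⟩
        · exact Or.inl ⟨hm1, h⟩
      obtain ⟨N, hN⟩ := (hs4.union h5).bddAbove
      apply mem_of_eventually_eq (N := N + 1) (indA_mem s)
      intro n hn
      by_cases h1 : n ∈ t.A ∩ r.A
      · have h2 : n ∈ s.A := by
          by_contra hcon
          have := hN (Or.inl ⟨h1, hcon⟩)
          omega
        rw [ind_mem h1, ind_mem h2]
      · have h2 : n ∉ s.A := by
          intro hcon
          have := hN (Or.inr ⟨hcon, h1⟩)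
          omega
        rw [ind_notMem h1, ind_notMem h2]

lemma gens_ind {g : LI} (hg : g ∈ gens) : ∃ S : Idx, g = ind S.1 := by
  rcases hg with ⟨n, rfl⟩ | ⟨t, rfl⟩
  · exact ⟨ixn n, rfl⟩
  · exact ⟨ixt t, rfl⟩

lemma isClosed_X0 : IsClosed (X0 : Set LI) := Submodule.isClosed_topologicalClosure _

lemma X0_mul {f g : LI} (hf : f ∈ X0) (hg : g ∈ X0) : f * g ∈ X0 := by
  have step : ∀ h : LI, (∀ g ∈ gens, h * g ∈ X0) → ∀ g ∈ X0, h * g ∈ X0 := by
    intro h hh g hg
    have h1 : X0 ≤ X0.comap (LinearMap.mulLeft ℝ h) := by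
      apply Submodule.topologicalClosure_minimal
      · rw [Submodule.span_le]
        intro g hg
        exact hh g hg
      · exact isClosed_X0.preimage (continuous_const.mul continuous_id)
    exact h1 hg
  have h1 : ∀ a ∈ gens, ∀ g ∈ X0, a * g ∈ X0 := by
    intro a ha
    apply step
    intro b hb
    obtain ⟨S, rfl⟩ := gens_ind ha
    obtain ⟨T, rfl⟩ := gens_ind hb
    exact ind_mul_mem S T
  have h2 : ∀ a ∈ gens, g * a ∈ X0 := fun a ha => by
    rw [mul_comm]
    exact h1 a ha g hg
  have h3 := step g h2 f hf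
  rwa [mul_comm] at h3

/-! ### Restriction to the integers -/

/-- restriction of a continuous function to the integers -/
noncomputable def rst (f : C(KK, ℝ)) : LI :=
  BoundedContinuousFunction.ofNormedAddCommGroupDiscrete (fun n => f (pt n)) ‖f‖
    fun n => f.norm_coe_le_norm (pt n)

lemma rst_apply (f : C(KK, ℝ)) (n : ℕ) : rst f n = f (pt n) := rfl

lemma norm_rst (f : C(KK, ℝ)) : ‖rst f‖ = ‖f‖ := by
  apply le_antisymm
  · rw [BoundedContinuousFunction.norm_le (norm_nonneg f)]
    intro n
    exact f.norm_coe_le_norm (pt n)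
  · rw [ContinuousMap.norm_le f (norm_nonneg _)]
    have hcl : IsClosed {p : KK | ‖f p‖ ≤ ‖rst f‖} :=
      isClosed_le (f.continuous.norm) continuous_const
    intro p
    have h1 : range pt ⊆ {p : KK | ‖f p‖ ≤ ‖rst f‖} := by
      rintro _ ⟨n, rfl⟩
      exact (rst f).norm_coe_le_norm n
    exact hcl.closure_subset_iff.mpr h1 (dense_pt p)

/-- restriction as an isometry -/
noncomputable def rs0 : C(KK, ℝ) →ₗᵢ[ℝ] LI where
  toFun := rst
  map_add' := fun _ _ => rfl
  map_smul' := fun _ _ => rfl
  norm_map' := norm_rst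

lemma rs0_apply (f : C(KK, ℝ)) (n : ℕ) : rs0 f n = f (pt n) := rfl

lemma rs0_mul (f g : C(KK, ℝ)) : rs0 (f * g) = rs0 f * rs0 g := rfl

lemma rs0_one : rs0 1 = 1 := rfl

/-- the coordinate functions -/
noncomputable def chi (S : Idx) : C(KK, ℝ) where
  toFun := fun p => if co p S = true then 1 else 0
  continuous_toFun := by
    have h1 : Continuous fun b : Bool => (if b = true then (1 : ℝ) else 0) :=
      continuous_of_discreteTopology
    exact h1.comp (continuous_co S)

lemma chi_apply (S : Idx) (p : KK) : chi S p = if co p S = true then 1 else 0 := rfl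

lemma rs0_chi (S : Idx) : rs0 (chi S) = ind S.1 := by
  ext n
  rw [rs0_apply, chi_apply, co_pt]
  by_cases h : n ∈ S.1
  · rw [ind_mem h, if_pos (kap_eq_true.mpr h)]
  · rw [ind_notMem h, if_neg]
    intro h'
    exact h (kap_eq_true.mp h')

lemma chi_infp (S : Idx) : chi S infp = 0 := by
  rw [chi_apply, co_infp]
  simp

/-- subtraction of the value at infinity -/
noncomputable def sb : C(KK, ℝ) →L[ℝ] LI :=
  rs0.toContinuousLinearMap - (ContinuousMap.evalCLM ℝ infp).smulRight (1 : LI)

lemma sb_apply (f : C(KK, ℝ)) : sb f = rs0 f - f infp • (1 : LI) := rfl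

/-- The functions whose restriction is in the sum of the space and the constants. -/
noncomputable def VV : Subalgebra ℝ C(KK, ℝ) where
  carrier := {f | sb f ∈ X0}
  mul_mem' := by
    intro f g hf hg
    have hf' : sb f ∈ X0 := hf
    have hg' : sb g ∈ X0 := hg
    change sb (f * g) ∈ X0
    have h1 : sb (f * g) = sb f * sb g + f infp • sb g + g infp • sb f := by
      ext n
      have h1n : (1 : LI) n = 1 := rfl
      simp only [sb_apply, rs0_mul, ContinuousMap.mul_apply, BoundedContinuousFunction.add_apply,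
        BoundedContinuousFunction.sub_apply, BoundedContinuousFunction.mul_apply,
        BoundedContinuousFunction.smul_apply, h1n, smul_eq_mul]
      ring
    rw [h1]
    exact Submodule.add_mem _ (Submodule.add_mem _ (X0_mul hf' hg') (Submodule.smul_mem _ _ hg'))
      (Submodule.smul_mem _ _ hf')
  add_mem' := by
    intro f g hf hg
    have hf' : sb f ∈ X0 := hf
    have hg' : sb g ∈ X0 := hg
    change sb (f + g) ∈ X0
    rw [map_add]
    exact Submodule.add_mem _ hf' hg'
  algebraMap_mem' := by
    intro c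
    change sb (algebraMap ℝ C(KK, ℝ) c) ∈ X0
    have h1 : sb (algebraMap ℝ C(KK, ℝ) c) = 0 := by
      ext n
      have h1n : (1 : LI) n = 1 := rfl
      have h2 : ∀ p : KK, (algebraMap ℝ C(KK, ℝ) c) p = c := fun p => rfl
      simp only [sb_apply, BoundedContinuousFunction.sub_apply, rs0_apply, h2,
        BoundedContinuousFunction.smul_apply, h1n, smul_eq_mul, mul_one, sub_self,
        BoundedContinuousFunction.coe_zero, Pi.zero_apply]
    rw [h1]
    exact Submodule.zero_mem _

lemma chi_mem (S : Idx) : chi S ∈ VV := by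
  change sb (chi S) ∈ X0
  rw [sb_apply, rs0_chi, chi_infp, zero_smul, sub_zero]
  rcases S with ⟨S, ⟨n, rfl⟩ | ⟨t, rfl⟩⟩
  · exact single_mem n
  · exact indA_mem t

lemma sep_VV : VV.SeparatesPoints := by
  intro p p' hne
  have h1 : ∃ S, co p S ≠ co p' S := by
    by_contra hcon
    push Not at hcon
    exact hne (ext_co hcon)
  obtain ⟨S, hS⟩ := h1
  refine ⟨chi S, ⟨chi S, chi_mem S, rfl⟩, ?_⟩
  rw [chi_apply, chi_apply]
  rcases h2 : co p S with _ | _ <;> rcases h3 : co p' S with _ | _
  · exact (hS (h2.trans h3.symm)).elim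
  · simp
  · simp
  · exact (hS (h2.trans h3.symm)).elim

theorem sb_mem (f : C(KK, ℝ)) : sb f ∈ X0 := by
  have h1 := ContinuousMap.subalgebra_topologicalClosure_eq_top_of_separatesPoints VV sep_VV
  have h2 : IsClosed (VV : Set C(KK, ℝ)) := isClosed_X0.preimage sb.continuous
  have h3 : f ∈ VV.topologicalClosure := by
    rw [h1]
    trivial
  have h4 : f ∈ closure (VV : Set C(KK, ℝ)) := h3
  rw [h2.closure_eq] at h4
  exact h4

theorem exists_rs0 {x : LI} (hx : x ∈ X0) : ∃ f : C(KK, ℝ), rs0 f = x := by
  have h1 : X0 ≤ LinearMap.range rs0.toLinearMap := by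
    apply Submodule.topologicalClosure_minimal
    · rw [Submodule.span_le]
      intro g hg
      obtain ⟨S, rfl⟩ := gens_ind hg
      exact ⟨chi S, rs0_chi S⟩
    · have h2 : IsClosed (range rs0) := rs0.isometry.isClosedEmbedding.isClosed_range
      exact h2
  obtain ⟨f, hf⟩ := h1 hx
  exact ⟨f, hf⟩

/-- the inclusion of the space into the continuous functions -/
noncomputable def jj : XX →ₗᵢ[ℝ] C(KK, ℝ) where
  toFun := fun x => (exists_rs0 (incl_mem x)).choose
  map_add' := fun x y => rs0.injective (by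
    have h1 := (exists_rs0 (incl_mem (x + y))).choose_spec
    rw [map_add rs0, (exists_rs0 (incl_mem x)).choose_spec,
      (exists_rs0 (incl_mem y)).choose_spec]
    exact h1)
  map_smul' := fun c x => rs0.injective (by
    have h1 := (exists_rs0 (incl_mem (c • x))).choose_spec
    rw [map_smul rs0, (exists_rs0 (incl_mem x)).choose_spec]
    exact h1)
  norm_map' := fun x => by
    change ‖(exists_rs0 (incl_mem x)).choose‖ = ‖x‖
    rw [← rs0.norm_map, (exists_rs0 (incl_mem x)).choose_spec, incl.norm_map]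

lemma rs0_jj (x : XX) : rs0 (jj x) = incl x := (exists_rs0 (incl_mem x)).choose_spec

/-- the projection onto the space -/
noncomputable def PP : C(KK, ℝ) →L[ℝ] XX :=
  LinearMap.mkContinuous
    { toFun := fun f => (⟨sb f, sb_mem f⟩ : X0)
      map_add' := fun f g => Subtype.ext (map_add sb f g)
      map_smul' := fun c f => Subtype.ext (map_smul sb c f) } ‖sb‖
    (fun f => sb.le_opNorm f)

lemma incl_PP (f : C(KK, ℝ)) : incl (PP f) = sb f := rfl

lemma decomp (f : C(KK, ℝ)) : f = jj (PP f) + f infp • (1 : C(KK, ℝ)) := by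
  apply rs0.injective
  rw [map_add, map_smul, rs0_jj, incl_PP, rs0_one, sb_apply]
  abel

end Pool.Agent.Lib.MP_c718d4_an
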