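import Pool.Agent.Lib.MP_c718d4_an.H1.Core

/-!
# Weakly convergent sequences in the sphere which do not converge in norm
-/

open Set Filter Topology

namespace Pool.Agent.Lib.MP_c718d4_an

variable {X : Type*} [NormedAddCommGroup X] [NormedSpace ℝ X] (ι : X →ₗᵢ[ℝ] LI)

/-- The functionals along which a sequence tends to zero. -/
def TZ (w : ℕ → X) : Submodule ℝ (X →L[ℝ] ℝ) where
  carrier := {ψ | Tendsto (fun n => ψ (w n)) atTop (𝓝 0)}
  add_mem' := fun {a b} ha hb => by
    have := Filter.Tendsto.add ha hb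
    rw [add_zero] at this
    exact this
  zero_mem' := by
    change Tendsto (fun n => (0 : X →L[ℝ] ℝ) (w n)) atTop (𝓝 0)
    simp
  smul_mem' := fun c ψ hψ => by
    have := Filter.Tendsto.const_mul c hψ
    rw [mul_zero] at this
    exact this

lemma isClosed_TZ {w : ℕ → X} {M : ℝ} (hM : ∀ n, ‖w n‖ ≤ M) :
    IsClosed (TZ w : Set (X →L[ℝ] ℝ)) := by
  apply isClosed_of_closure_subset
  intro ψ hψ
  change Tendsto (fun n => ψ (w n)) atTop (𝓝 0)
  rw [Metric.tendsto_nhds]
  intro ε hε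
  have hM0 : 0 ≤ M := (norm_nonneg _).trans (hM 0)
  obtain ⟨χ, hχ, hχ'⟩ := Metric.mem_closure_iff.mp hψ (ε / (2 * (M + 1))) (by positivity)
  have hχ2 : Tendsto (fun n => χ (w n)) atTop (𝓝 0) := hχ
  filter_upwards [(Metric.tendsto_nhds.mp hχ2) (ε / 2) (by positivity)] with n hn
  rw [Real.dist_eq, sub_zero] at hn ⊢
  rw [dist_eq_norm] at hχ'
  have h3 : |(ψ - χ) (w n)| ≤ ‖ψ - χ‖ * ‖w n‖ := (ψ - χ).le_opNorm _
  have h4 : ‖ψ - χ‖ * ‖w n‖ ≤ ε / (2 * (M + 1)) * (M + 1) := by
    apply mul_le_mul hχ'.le _ (norm_nonneg _) (by positivity)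
    linarith [hM n]
  have h5 : ε / (2 * (M + 1)) * (M + 1) = ε / 2 := by
    field_simp
  have h6 : ψ (w n) = (ψ - χ) (w n) + χ (w n) := by
    rw [sub_apply]
    ring
  rw [h6]
  refine (abs_add_le _ _).trans_lt ?_
  linarith

variable {ι}

/-- A bounded sequence that tends to zero at every integer and every node tends weakly to zero. -/
theorem weak_of_points (hι : ∀ x, ι x ∈ X0) (w : ℕ → X) {M : ℝ} (hM : ∀ n, ‖w n‖ ≤ M)
    (h1 : ∀ m : ℕ, Tendsto (fun n => (ι (w n)) m) atTop (𝓝 0))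
    (h2 : ∀ t : Node, Tendsto (fun n => dl t (ι (w n))) atTop (𝓝 0))
    (φ : X →L[ℝ] ℝ) : Tendsto (fun n => φ (w n)) atTop (𝓝 0) := by
  obtain ⟨Φ, hΦ, _⟩ := exists_extension_norm_eq (𝕜 := ℝ) (LinearMap.range ι.toLinearMap)
    (φ.comp (ι.equivRange.symm : LinearMap.range ι.toLinearMap →L[ℝ] X))
  have h3 : restr ι Φ = φ := by
    ext x
    have h4 : Φ (ι x) = φ x := by simpa using hΦ (ι.equivRange x)
    exact h4
  have hmem : φ ∈ DD ι := h3 ▸ restr_mem hι Φ
  have hle : DD ι ≤ TZ w := by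
    apply Submodule.topologicalClosure_minimal _ _ (isClosed_TZ hM)
    rw [Submodule.span_le]
    rintro _ (⟨m, rfl⟩ | ⟨t, rfl⟩)
    · exact h1 m
    · exact h2 t
  exact hle hmem

lemma Node.not_le_of_ht {t r : Node} (h : r.ht < t.ht) : ¬ t.le r := fun h' =>
  absurd h'.1 (not_le.mpr h)

lemma Node.le_of_le_succ {t t0 : Node} {i j : ℕ} (hij : i ≠ j) (hi : t.le (t0.succ i))
    (hj : t.le (t0.succ j)) : t.le t0 := by
  have hlt : t.ht ≤ t0.ht := by
    by_contra hcon
    have h1 := hi.2 t0.ht (not_le.mp hcon)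
    have h2 := hj.2 t0.ht (not_le.mp hcon)
    have e1 : (t0.succ i).f t0.ht = i := by simp [succ]
    have e2 : (t0.succ j).f t0.ht = j := by simp [succ]
    rw [e1] at h1
    rw [e2] at h2
    exact hij (h1.symm.trans h2)
  refine ⟨hlt, fun β hβ => ?_⟩
  rw [hi.2 β hβ]
  simp only [succ]
  rw [Function.update_of_ne (hβ.trans_le hlt).ne]

/-- the value of an eventual indicator at a node -/
lemma dl_eventual {t r : Node} {f : LI} {K : ℕ} (hf : ∀ m, K ≤ m → f m = ind r.A m)
    (hne : (FF t).NeBot) : (t.le r → dl t f = 1) ∧ (¬ t.le r → dl t f = 0) := by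
  have hK : ∀ᶠ m in FF t, K ≤ m := by
    have : (Set.Ici K) ∈ FF t := FF_cofinite (by
      rw [Set.compl_Ici]
      exact Set.finite_Iio K)
    exact this
  constructor
  · intro h
    apply dl_eq hne
    apply (tendsto_ind_sub h).congr'
    filter_upwards [hK] with m hm
    exact (hf m hm).symm
  · intro h
    apply dl_eq hne
    apply (tendsto_ind_notsub h).congr'
    filter_upwards [hK] with m hm
    exact (hf m hm).symm

theorem core_kadec (q : Seminorm ℝ X0) {c C : ℝ} (hc : 0 < c) (hC : 0 < C)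
    (hq : ∀ x : X0, c * ‖x‖ ≤ q x ∧ q x ≤ C * ‖x‖) :
    ∃ (x : X0) (y : ℕ → X0) (M : ℝ), 0 < q x ∧ (∀ n, 0 < q (y n)) ∧
      (∀ n, ‖y n - x‖ ≤ M) ∧
      (∀ m : ℕ, Tendsto (fun n => ((y n - x : X0) : LI) m) atTop (𝓝 0)) ∧
      (∀ t : Node, Tendsto (fun n => dl t ((y n - x : X0) : LI)) atTop (𝓝 0)) ∧
      (∀ n : ℕ, q (y n) < q x + 1 / ((n : ℝ) + 1)) ∧ ∀ n, 1 ≤ ‖y n - x‖ := by
  classical
  obtain ⟨t0, ht0⟩ := exists_stable q
  set x := nd t0 with hx
  have hst := ht0 x (Cl_nd t0) (Half_nd t0)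
  have hA : ∀ (i : ℕ) (k : ℕ) {ε : ℝ}, 0 < ε → ∃ (z : X0) (K : ℕ), k ≤ K ∧
      (∀ m < k, (z : LI) m = (x : LI) m) ∧
      (∀ m, K ≤ m → (z : LI) m = ind (t0.succ i).A m) ∧ q z < q x + ε := fun i k {ε} hε =>
    claimA q hc hC hq x (t0.succ i) (fun s hs => hst s (Node.le_trans (t0.le_succ i) hs)) k hε
  choose y K hK hyx hyK hqy using fun n : ℕ => hA n n (ε := 1 / ((n : ℝ) + 1)) (by positivity)
  have hfrac : ∀ n : ℕ, 1 / ((n : ℝ) + 1) ≤ 1 := fun n => by
    rw [div_le_one (by positivity)]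
    have : (0 : ℝ) ≤ n := Nat.cast_nonneg n
    linarith
  have hqx : 0 ≤ q x := apply_nonneg q x
  set M : ℝ := (q x + 1) / c with hM
  have hM0 : 0 < M := by positivity
  have hyM : ∀ n, ‖y n‖ ≤ M := by
    intro n
    rw [hM, le_div_iff₀ hc, mul_comm]
    have h1 := (hq (y n)).1
    have h2 := hqy n
    have h3 := hfrac n
    linarith
  have hxM : ‖x‖ ≤ M := by
    rw [hM, le_div_iff₀ hc, mul_comm]
    have h1 := (hq x).1
    linarith
  have hbig : ∀ n, 1 ≤ ‖y n - x‖ ∧ 1 ≤ ‖y n‖ := by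
    intro n
    obtain ⟨m, hm1, hm2⟩ := (t0.succ_diff_infinite n).exists_gt (K n)
    have h1 : (y n : LI) m = 1 := by rw [hyK n m hm2.le, ind_mem hm1.1]
    have h2 : (x : LI) m = 0 := by rw [hx, nd_apply, ind_notMem hm1.2]
    have h3 : |((y n - x : X0) : LI) m| ≤ ‖y n - x‖ :=
      ((y n - x : X0) : LI).norm_coe_le_norm m
    have h4 : ((y n - x : X0) : LI) m = (y n : LI) m - (x : LI) m := rfl
    have h5 : |(y n : LI) m| ≤ ‖y n‖ := (y n : LI).norm_coe_le_norm m
    rw [h4, h1, h2, sub_zero, abs_one] at h3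
    rw [h1, abs_one] at h5
    exact ⟨h3, h5⟩
  have hlow : ∀ z : X0, 0 < ‖z‖ → 0 < q z := fun z hz => (mul_pos hc hz).trans_le (hq z).1
  have hpt : ∀ m : ℕ, Tendsto (fun n => ((y n - x : X0) : LI) m) atTop (𝓝 0) := by
    intro m
    apply tendsto_nhds_of_eventually_eq
    filter_upwards [eventually_gt_atTop m] with n hn
    have h4 : ((y n - x : X0) : LI) m = (y n : LI) m - (x : LI) m := rfl
    rw [h4, hyx n m hn, sub_self]
  have hnd : ∀ t : Node, Tendsto (fun n => dl t ((y n - x : X0) : LI)) atTop (𝓝 0) := by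
      intro t
      apply tendsto_nhds_of_eventually_eq
      by_cases hne : (FF t).NeBot
      · have hxe : ∀ m, 0 ≤ m → (x : LI) m = ind t0.A m := fun m _ => rfl
        have hval : ∀ n, (t.le (t0.succ n) ↔ t.le t0) → dl t ((y n - x : X0) : LI) = 0 := by
          intro n hn
          have h4 : ((y n - x : X0) : LI) = (y n : LI) - (x : LI) := rfl
          rw [h4, map_sub]
          by_cases h : t.le t0
          · rw [(dl_eventual (hyK n) hne).1 (hn.mpr h), (dl_eventual hxe hne).1 h, sub_self]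
          · rw [(dl_eventual (hyK n) hne).2 (fun h' => h (hn.mp h')),
              (dl_eventual hxe hne).2 h, sub_self]
        by_cases hex : ∃ i, t.le (t0.succ i) ∧ ¬ t.le t0
        · obtain ⟨i, hi, hni⟩ := hex
          filter_upwards [eventually_gt_atTop i] with n hn
          apply hval
          refine ⟨fun h => (hni (Node.le_of_le_succ hn.ne hi h)).elim, fun h => (hni h).elim⟩
        · push Not at hex
          exact Eventually.of_forall fun n => hval n
            ⟨fun h => hex n h, fun h => Node.le_trans h (t0.le_succ n)⟩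
      · refine Eventually.of_forall fun n => ?_
        unfold dl
        rw [dif_neg hne]
        rfl
  have hxpos : 0 < q x := by
    apply lt_of_le_of_ne hqx
    intro h0
    have h3 : ∀ n : ℕ, c ≤ 1 / ((n : ℝ) + 1) := by
      intro n
      have h4 := (hbig n).2
      have h5 := (hq (y n)).1
      have h6 := hqy n
      rw [← h0, zero_add] at h6
      nlinarith
    have h4 : c ≤ 0 := ge_of_tendsto' tendsto_one_div_add_atTop_nhds_zero_nat h3
    linarith
  exact ⟨x, y, 2 * M, hxpos, fun n => hlow _ (lt_of_lt_of_le one_pos (hbig n).2), fun n => by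
    refine (norm_sub_le (y n) x).trans ?_
    linarith [hyM n], hpt, hnd, hqy, fun n => (hbig n).1⟩

end Pool.Agent.Lib.MP_c718d4_an
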