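import Pool.Agent.Lib.MP_c718d4_an.H1.Iso
import Pool.Agent.Lib.MP_c718d4_an.H1.Kadec

/-!
# Transfer to the continuous functions on the compact space
-/

open Set Filter Topology

namespace Pool.Agent.Lib.MP_c718d4_an

/-! ### The two obstructions, for the space as a type -/

theorem core_midX (q : Seminorm ℝ XX) {c C : ℝ} (hc : 0 < c) (hC : 0 < C)
    (hq : ∀ x : XX, c * ‖x‖ ≤ q x ∧ q x ≤ C * ‖x‖) :
    ∃ (D : Set ℕ) (x : XX) (u : ℕ → XX) (e : ℕ → ℝ) (S : ℝ), D.Infinite ∧ 0 < q x ∧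
      Tendsto e atTop (𝓝 0) ∧ (∀ n, q (x + u n) ≤ q x + e n) ∧ (∀ n, q (x - u n) ≤ q x + e n) ∧
      (∀ n, q (u n) ≤ S) ∧ ∀ n, ∃ K, ∀ m, K ≤ m → m ∈ D → incl (u n) m = 1 / 2 :=
  core_mid q hc hC hq

theorem core_kadecX (q : Seminorm ℝ XX) {c C : ℝ} (hc : 0 < c) (hC : 0 < C)
    (hq : ∀ x : XX, c * ‖x‖ ≤ q x ∧ q x ≤ C * ‖x‖) :
    ∃ (x : XX) (y : ℕ → XX) (M : ℝ), 0 < q x ∧ (∀ n, 0 < q (y n)) ∧
      (∀ n, ‖y n - x‖ ≤ M) ∧
      (∀ m : ℕ, Tendsto (fun n => incl (y n - x) m) atTop (𝓝 0)) ∧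
      (∀ t : Node, Tendsto (fun n => dl t (incl (y n - x))) atTop (𝓝 0)) ∧
      (∀ n : ℕ, q (y n) < q x + 1 / ((n : ℝ) + 1)) ∧ ∀ n, 1 ≤ ‖y n - x‖ :=
  core_kadec q hc hC hq

/-! ### The space of continuous functions is Asplund -/

section

variable {E E0 : Type*} [NormedAddCommGroup E] [NormedSpace ℝ E] [NormedAddCommGroup E0]
  [NormedSpace ℝ E0]

/-- The Asplund property passes to an extension by one dimension. -/
theorem asplund_transfer (P : E →L[ℝ] E0) (j : E0 →L[ℝ] E) (e : E →L[ℝ] ℝ) (v : E)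
    (h : ∀ x, x = j (P x) + e x • v)
    (h0 : ∀ Y : Submodule ℝ E0, TopologicalSpace.SeparableSpace Y →
      TopologicalSpace.SeparableSpace (Y →L[ℝ] ℝ)) (Y : Submodule ℝ E)
    (hY : TopologicalSpace.SeparableSpace Y) : TopologicalSpace.SeparableSpace (Y →L[ℝ] ℝ) := by
  let Y0 : Submodule ℝ E0 := Y.map (P : E →ₗ[ℝ] E0)
  let PY : Y →L[ℝ] Y0 := (P.comp Y.subtypeL).codRestrict Y0 fun y => ⟨y.1, y.2, rfl⟩
  have hPY : ∀ y : Y, ((PY y : Y0) : E0) = P y.1 := fun y => rfl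
  have hsurj : Function.Surjective PY := by
    rintro ⟨_, y, hy, rfl⟩
    exact ⟨⟨y, hy⟩, rfl⟩
  have hY0 : TopologicalSpace.SeparableSpace Y0 := hsurj.denseRange.separableSpace PY.continuous
  have hD : TopologicalSpace.SeparableSpace (Y0 →L[ℝ] ℝ) := h0 Y0 hY0
  let ev : Y →L[ℝ] ℝ := e.comp Y.subtypeL
  let T : (Y0 →L[ℝ] ℝ) × ℝ → (Y →L[ℝ] ℝ) := fun a => a.1.comp PY + a.2 • ev
  have hTc : Continuous T := by
    have h1 : Continuous fun ψ : Y0 →L[ℝ] ℝ => ψ.comp PY :=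
      ((ContinuousLinearMap.compL ℝ Y Y0 ℝ).flip PY).continuous
    exact (h1.comp continuous_fst).add (continuous_snd.smul continuous_const)
  have hTs : Function.Surjective T := by
    intro φ
    obtain ⟨Φ, hΦ, _⟩ := exists_extension_norm_eq (𝕜 := ℝ) Y φ
    refine ⟨((Φ.comp j).comp Y0.subtypeL, Φ v), ?_⟩
    ext y
    change Φ (j (P y.1)) + Φ v * e y.1 = φ y
    rw [← hΦ y]
    conv_rhs => rw [h y.1]
    rw [map_add, map_smul, smul_eq_mul]
    ring
  exact hTs.denseRange.separableSpace hTc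

/-- The values of the functionals along a bounded sequence. -/
noncomputable def seqMap (u : ℕ → E) (M : ℝ) (hM : 0 ≤ M) (hu : ∀ n, ‖u n‖ ≤ M) :
    (E →L[ℝ] ℝ) →L[ℝ] LI :=
  LinearMap.mkContinuous
    { toFun := fun φ => BoundedContinuousFunction.ofNormedAddCommGroupDiscrete
        (fun n => φ (u n)) (M * ‖φ‖) fun n => by
          refine (φ.le_opNorm _).trans ?_
          rw [mul_comm]
          exact mul_le_mul_of_nonneg_right (hu n) (norm_nonneg φ)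
      map_add' := fun _ _ => rfl
      map_smul' := fun _ _ => rfl } M (fun φ => by
        rw [BoundedContinuousFunction.norm_le (by positivity)]
        intro n
        change ‖φ (u n)‖ ≤ _
        refine (φ.le_opNorm _).trans ?_
        rw [mul_comm]
        exact mul_le_mul_of_nonneg_right (hu n) (norm_nonneg φ))

lemma seqMap_apply (u : ℕ → E) (M : ℝ) (hM : 0 ≤ M) (hu : ∀ n, ‖u n‖ ≤ M) (φ : E →L[ℝ] ℝ)
    (n : ℕ) : seqMap u M hM hu φ n = φ (u n) := rfl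

end

theorem asplund_CK (Y : Submodule ℝ C(KK, ℝ)) (hY : TopologicalSpace.SeparableSpace Y) :
    TopologicalSpace.SeparableSpace (Y →L[ℝ] ℝ) :=
  asplund_transfer PP jj.toContinuousLinearMap (ContinuousMap.evalCLM ℝ infp) 1 decomp
    asplund_XX Y hY

/-! ### A strictly convex norm -/

/-- The strictly convex norm on the continuous functions. -/
noncomputable def scK : Seminorm ℝ C(KK, ℝ) :=
  normSeminorm ℝ C(KK, ℝ) +
    (normSeminorm ℝ (lp (fun _ : ℕ => ℝ) 2)).comp (wt.comp rs0.toLinearMap)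

lemma scK_apply (f : C(KK, ℝ)) : scK f = ‖f‖ + ‖wt (rs0 f)‖ := rfl

lemma scK_equiv : ∃ c C : ℝ, 0 < c ∧ 0 < C ∧
    ∀ f : C(KK, ℝ), c * ‖f‖ ≤ scK f ∧ scK f ≤ C * ‖f‖ := by
  refine ⟨1, 3, one_pos, by norm_num, fun x => ?_⟩
  rw [scK_apply]
  have h1 := norm_nonneg (wt (rs0 x))
  have h2 := norm_wt_le (rs0 x)
  rw [rs0.norm_map] at h2
  constructor <;> linarith

lemma scK_strict (x y : C(KK, ℝ)) (hx : scK x = 1) (hy : scK y = 1)
    (hxy : scK (x + y) = 2) : x = y := by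
  have h1 := hx
  have h2 := hy
  have h3 := hxy
  rw [scK_apply] at h1 h2 h3
  have h4 : ‖x + y‖ ≤ ‖x‖ + ‖y‖ := norm_add_le x y
  have h5 : wt (rs0 (x + y)) = wt (rs0 x) + wt (rs0 y) := by
    rw [map_add, map_add]
  have h6 : ‖wt (rs0 x) + wt (rs0 y)‖ ≤ ‖wt (rs0 x)‖ + ‖wt (rs0 y)‖ := norm_add_le _ _
  rw [h5] at h3
  have h7 : SameRay ℝ (wt (rs0 x)) (wt (rs0 y)) := by
    rw [sameRay_iff_norm_add]
    linarith
  have hx0 : wt (rs0 x) ≠ 0 := by
    intro h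
    have hx' : rs0 x = 0 := wt_injective (by rw [h, map_zero])
    have hx'' : x = 0 := rs0.injective (by rw [hx', map_zero])
    rw [hx'', map_zero] at hx
    norm_num at hx
  have hy0 : wt (rs0 y) ≠ 0 := by
    intro h
    have hy' : rs0 y = 0 := wt_injective (by rw [h, map_zero])
    have hy'' : y = 0 := rs0.injective (by rw [hy', map_zero])
    rw [hy'', map_zero] at hy
    norm_num at hy
  obtain ⟨r, s, hr, hs, hrs⟩ := h7.exists_pos hx0 hy0
  have h8 : r • x = s • y := by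
    apply rs0.injective
    apply wt_injective
    rw [map_smul, map_smul, map_smul, map_smul, hrs]
  have h9 : r = s := by
    have h10 := congrArg scK h8
    rw [map_smul_eq_mul, map_smul_eq_mul, hx, hy, Real.norm_eq_abs, Real.norm_eq_abs,
      abs_of_pos hr, abs_of_pos hs, mul_one, mul_one] at h10
    exact h10
  rw [h9] at h8
  exact smul_right_injective _ hs.ne' h8

/-! ### Restriction of norms -/

/-- the restriction of a seminorm to the space -/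
noncomputable def rq (q : Seminorm ℝ C(KK, ℝ)) : Seminorm ℝ XX := q.comp jj.toLinearMap

lemma rq_apply (q : Seminorm ℝ C(KK, ℝ)) (x : XX) : rq q x = q (jj x) := rfl

lemma rq_equiv {q : Seminorm ℝ C(KK, ℝ)} {c C : ℝ}
    (hq : ∀ x, c * ‖x‖ ≤ q x ∧ q x ≤ C * ‖x‖) (x : XX) :
    c * ‖x‖ ≤ rq q x ∧ rq q x ≤ C * ‖x‖ := by
  rw [rq_apply, ← jj.norm_map x]
  exact hq _

/-- No equivalent norm is even weakly midpoint locally uniformly rotund. -/
theorem wm_CK (q : Seminorm ℝ C(KK, ℝ)) {c C : ℝ} (hc : 0 < c) (hC : 0 < C)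
    (hq : ∀ x, c * ‖x‖ ≤ q x ∧ q x ≤ C * ‖x‖) :
    ∃ (x : C(KK, ℝ)) (u : ℕ → C(KK, ℝ)) (φ : C(KK, ℝ) →L[ℝ] ℝ), q x = 1 ∧
      (∀ n, q (u n) ≤ 1) ∧ Tendsto (fun n => q (x + u n)) atTop (𝓝 1) ∧
      Tendsto (fun n => q (x - u n)) atTop (𝓝 1) ∧ ∀ n, φ (u n) = 1 := by
  obtain ⟨D, x, u, e, S, hD, hx, he, h1, h2, hS, hu⟩ := core_midX (rq q) hc hC (rq_equiv hq)
  have h1' : ∀ n, q (jj x + jj (u n)) ≤ q (jj x) + e n := fun n => by
    rw [← map_add]
    exact h1 n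
  have h2' : ∀ n, q (jj x - jj (u n)) ≤ q (jj x) + e n := fun n => by
    rw [← map_sub]
    exact h2 n
  obtain ⟨a, b, ha, hb, hqa, hqb, t1, t2⟩ := rescale q (x := jj x) hx (fun n => jj (u n)) e he
    h1' h2' hS
  have hne : (cofinite ⊓ 𝓟 D).NeBot := by
    rw [cofinite_inf_principal_neBot_iff]
    exact hD
  let U : Ultrafilter ℕ := Ultrafilter.of (cofinite ⊓ 𝓟 D)
  have hU : ∀ n, ulim U (rs0 (jj (u n))) = 1 / 2 := by
    intro n
    obtain ⟨K, hK⟩ := hu n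
    have h3 := tendsto_ulim U (rs0 (jj (u n)))
    have h4 : Tendsto (rs0 (jj (u n))) U (𝓝 (1 / 2)) := by
      apply Tendsto.mono_left _ (Ultrafilter.of_le _)
      apply tendsto_nhds_of_eventually_eq
      rw [eventually_inf_principal, Nat.cofinite_eq_atTop]
      filter_upwards [eventually_ge_atTop K] with m hm hmD
      rw [rs0_jj]
      exact hK m hm hmD
    exact tendsto_nhds_unique h3 h4
  refine ⟨a • jj x, fun n => b • jj (u n), (2 / b) • (ulim U).comp rs0.toContinuousLinearMap,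
    hqa, hqb, t1, t2, fun n => ?_⟩
  change 2 / b * ulim U (rs0 (b • jj (u n))) = 1
  rw [map_smul, map_smul, hU n, smul_eq_mul]
  field_simp

/-- The functional given by a bounded sequence and an ultrafilter on the dual. -/
theorem bid_CK (q : Seminorm ℝ C(KK, ℝ)) {c C : ℝ} (hc : 0 < c) (hC : 0 < C)
    (hq : ∀ x, c * ‖x‖ ≤ q x ∧ q x ≤ C * ‖x‖) :
    ∃ (x : C(KK, ℝ)) (Φ : (C(KK, ℝ) →L[ℝ] ℝ) →L[ℝ] ℝ), q x = 1 ∧ Φ ≠ 0 ∧
      ∀ φ : C(KK, ℝ) →L[ℝ] ℝ, (∀ y, |φ y| ≤ q y) → |φ x + Φ φ| ≤ 1 ∧ |φ x - Φ φ| ≤ 1 := by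
  obtain ⟨x, u, φ0, hx, hu, t1, t2, hφ0⟩ := wm_CK q hc hC hq
  have hbd : ∀ n, ‖u n‖ ≤ 1 / c := fun n => by
    rw [le_div_iff₀ hc, mul_comm]
    exact (hq (u n)).1.trans (hu n)
  let T : (C(KK, ℝ) →L[ℝ] ℝ) →L[ℝ] LI := seqMap u (1 / c) (by positivity) hbd
  have hT : ∀ φ n, T φ n = φ (u n) := fun _ _ => rfl
  let U : Ultrafilter ℕ := Filter.hyperfilter ℕ
  have hUle : (U : Filter ℕ) ≤ atTop := by
    rw [← Nat.cofinite_eq_atTop]
    exact Filter.hyperfilter_le_cofinite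
  refine ⟨x, (ulim U).comp T, hx, ?_, ?_⟩
  · intro h0
    have h1 : ulim U (T φ0) = 0 := DFunLike.congr_fun h0 φ0
    have h2 := tendsto_ulim U (T φ0)
    have h3 : Tendsto (T φ0) U (𝓝 1) := by
      apply tendsto_nhds_of_eventually_eq
      exact Eventually.of_forall fun n => by rw [hT, hφ0]
    have h4 := tendsto_nhds_unique h2 h3
    rw [h1] at h4
    norm_num at h4
  · intro φ hφ
    have h2 : Tendsto (T φ) U (𝓝 (ulim U (T φ))) := tendsto_ulim U (T φ)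
    change |φ x + ulim U (T φ)| ≤ 1 ∧ |φ x - ulim U (T φ)| ≤ 1
    constructor
    · have h3 : Tendsto (fun n => |φ x + T φ n|) U (𝓝 |φ x + ulim U (T φ)|) :=
        (h2.const_add (φ x)).abs
      refine le_of_tendsto_of_tendsto' h3 (t1.mono_left hUle) fun n => ?_
      rw [hT, ← map_add]
      exact hφ _
    · have h3 : Tendsto (fun n => |φ x - T φ n|) U (𝓝 |φ x - ulim U (T φ)|) :=
        (h2.const_sub (φ x)).abs
      refine le_of_tendsto_of_tendsto' h3 (t2.mono_left hUle) fun n => ?_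
      rw [hT, ← map_sub]
      exact hφ _

/-- A supporting functional. -/
lemma exists_support (q : Seminorm ℝ C(KK, ℝ)) {C : ℝ}
    (hq : ∀ x, q x ≤ C * ‖x‖) {x : C(KK, ℝ)} (hx : 0 < q x) :
    ∃ ψ : C(KK, ℝ) →L[ℝ] ℝ, ψ x = q x ∧ ∀ y, ψ y ≤ q y := by
  have hx0 : x ≠ 0 := by
    rintro rfl
    rw [map_zero] at hx
    exact lt_irrefl _ hx
  let f0 : C(KK, ℝ) →ₗ.[ℝ] ℝ := LinearPMap.mkSpanSingleton x (q x) hx0
  have hf0 : ∀ (r : ℝ) (h : r • x ∈ f0.domain), f0 ⟨r • x, h⟩ = r * q x := fun r h =>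
    LinearPMap.mkSpanSingleton'_apply x (q x) _ r h
  obtain ⟨g, hg1, hg2⟩ := exists_extension_of_le_sublinear f0 q
    (fun c hc y => by rw [map_smul_eq_mul, Real.norm_eq_abs, abs_of_pos hc])
    (fun y z => map_add_le_add q y z) (by
      rintro ⟨y, hy⟩
      obtain ⟨r, rfl⟩ := Submodule.mem_span_singleton.mp hy
      rw [hf0]
      change r * q x ≤ q (r • x)
      rw [map_smul_eq_mul, Real.norm_eq_abs]
      exact mul_le_mul_of_nonneg_right (le_abs_self r) hx.le)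
  have hgx : g x = q x := by
    have hm : (1 : ℝ) • x ∈ f0.domain :=
      Submodule.smul_mem _ _ (Submodule.mem_span_singleton_self x)
    have h1 := hg1 ⟨(1 : ℝ) • x, hm⟩
    rw [hf0] at h1
    simpa using h1
  refine ⟨LinearMap.mkContinuous g C fun y => ?_, hgx, hg2⟩
  rw [Real.norm_eq_abs, abs_le]
  have h1 := (hg2 y).trans (hq y)
  have h2 := (hg2 (-y)).trans (hq (-y))
  rw [map_neg, norm_neg] at h2
  constructor <;> linarith

/-- The Kadec-Klee property fails for every equivalent norm. -/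
theorem kk_CK (q : Seminorm ℝ C(KK, ℝ)) {c C : ℝ} (hc : 0 < c) (hC : 0 < C)
    (hq : ∀ x, c * ‖x‖ ≤ q x ∧ q x ≤ C * ‖x‖) :
    ∃ (x : C(KK, ℝ)) (y : ℕ → C(KK, ℝ)), q x = 1 ∧ (∀ n, q (y n) = 1) ∧
      (∀ φ : C(KK, ℝ) →L[ℝ] ℝ, Tendsto (fun n => φ (y n)) atTop (𝓝 (φ x))) ∧
      ¬ Tendsto (fun n => q (y n - x)) atTop (𝓝 0) := by
  obtain ⟨x, y, M, hx, hy, hM, h1, h2, h3, h4⟩ := core_kadecX (rq q) hc hC (rq_equiv hq)
  have hx' : 0 < q (jj x) := hx
  have hy' : ∀ n, 0 < q (jj (y n)) := hy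
  have hweak : ∀ φ : C(KK, ℝ) →L[ℝ] ℝ, Tendsto (fun n => φ (jj (y n))) atTop (𝓝 (φ (jj x))) := by
    intro φ
    have h5 := weak_of_points (ι := incl) incl_mem (fun n => y n - x) hM h1 h2
      (φ.comp jj.toContinuousLinearMap)
    have h6 := h5.add_const (φ (jj x))
    rw [zero_add] at h6
    refine h6.congr fun n => ?_
    change φ (jj (y n - x)) + φ (jj x) = φ (jj (y n))
    rw [← map_add, ← map_add, sub_add_cancel]
  have hqc : Tendsto (fun n => q (jj (y n))) atTop (𝓝 (q (jj x))) := by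
    obtain ⟨ψ, hψ1, hψ2⟩ := exists_support q (fun x => (hq x).2) hx'
    have a1 := hweak ψ
    rw [hψ1] at a1
    have a2 : Tendsto (fun n : ℕ => q (jj x) + 1 / ((n : ℝ) + 1)) atTop (𝓝 (q (jj x))) := by
      have := tendsto_one_div_add_atTop_nhds_zero_nat (𝕜 := ℝ)
      have := this.const_add (q (jj x))
      rwa [add_zero] at this
    exact tendsto_of_tendsto_of_tendsto_of_le_of_le a1 a2 (fun n => hψ2 _) (fun n => (h3 n).le)
  have hn : ∀ {z : C(KK, ℝ)}, 0 < q z → q ((q z)⁻¹ • z) = 1 := fun {z} hz => by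
    rw [map_smul_eq_mul, Real.norm_eq_abs, abs_of_pos (inv_pos.mpr hz), inv_mul_cancel₀ hz.ne']
  refine ⟨(q (jj x))⁻¹ • jj x, fun n => (q (jj (y n)))⁻¹ • jj (y n), hn hx', fun n => hn (hy' n),
    fun φ => ?_, fun hcon => ?_⟩
  · simp only [map_smul, smul_eq_mul]
    exact (hqc.inv₀ hx'.ne').mul (hweak φ)
  · have h5 : Tendsto (fun n => q (jj (y n)) *
        q ((q (jj (y n)))⁻¹ • jj (y n) - (q (jj x))⁻¹ • jj x) +
          |q (jj (y n)) - q (jj x)|) atTop (𝓝 (q (jj x) * 0 + |q (jj x) - q (jj x)|)) :=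
      (hqc.mul hcon).add (hqc.sub_const _).abs
    rw [mul_zero, sub_self, abs_zero, add_zero] at h5
    have h6 : ∀ n, c ≤ q (jj (y n)) *
        q ((q (jj (y n)))⁻¹ • jj (y n) - (q (jj x))⁻¹ • jj x) +
          |q (jj (y n)) - q (jj x)| := by
      intro n
      have e1 : jj (y n - x) = q (jj (y n)) • ((q (jj (y n)))⁻¹ • jj (y n) - (q (jj x))⁻¹ • jj x) +
          (q (jj (y n)) - q (jj x)) • ((q (jj x))⁻¹ • jj x) := by
        rw [smul_sub, smul_smul, mul_inv_cancel₀ (hy' n).ne', one_smul, sub_smul, map_sub,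
          smul_smul (q (jj x)), mul_inv_cancel₀ hx'.ne', one_smul]
        abel
      have e2 : q (jj (y n - x)) ≤ q (jj (y n)) *
          q ((q (jj (y n)))⁻¹ • jj (y n) - (q (jj x))⁻¹ • jj x) +
            |q (jj (y n)) - q (jj x)| := by
        rw [e1]
        refine (map_add_le_add q _ _).trans ?_
        rw [map_smul_eq_mul, map_smul_eq_mul, hn hx', Real.norm_eq_abs, Real.norm_eq_abs,
          abs_of_pos (hy' n), mul_one]
      have e3 := (hq (jj (y n - x))).1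
      rw [jj.norm_map] at e3
      have e4 : 1 ≤ ‖y n - x‖ := h4 n
      nlinarith
    have h7 := ge_of_tendsto' h5 h6
    linarith

end Pool.Agent.Lib.MP_c718d4_an
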